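import Pool.Agent.V5helper14.FB.Core
import Pool.Agent.V5helper14.FB.CoreLog
import Pool.Agent.V5helper53.FB.HOLE
import Pool.Agent.V5helper36.FB.DEG
import Pool.Agent.V5helper69.FB.CONV
import Pool.Agent.V5helper26.FB.MONO
import Pool.Agent.V5helper46.FB.ACY
import Pool.Agent.V5helper37.FB.PROD

/-!
# `R(H, K_{n,n}) = O(n ^ r / (log n) ^ (r - 1))` for ordered partitions into forests

Q1 holds for every graph `H` whose vertices have an ordered partition into blocks such that every
block induces a forest, no vertex has two neighbours in the same earlier block, and every vertex has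
at most `r - 1` neighbours in earlier blocks (or `r` and no other neighbours). The class contains the
forests (`r = 1`), all subgraphs of Cartesian products `A □ T` of an arbitrary `(r - 1)`-degenerate graph
`A` and a forest `T`, for instance the prisms over `A`, and so all subgraphs of Cartesian products of `r`
forests, for instance the `r`-dimensional grids.

Idea: the blocks are embedded one after the other. When a block is embedded, each of its vertices still
has `C n` candidates; all but `O(n)` of them leave enough candidates to the later neighbours, and a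
forest can be embedded into the remaining candidates because there is an edge between any two disjoint
sets of `n` vertices.
-/

set_option autoImplicit false

namespace Pool.Agent.Results.MP_cdbf1d_co.ForestBlocks

open Pool.Agent.V5helper14

/-- `H` has an ordered partition into blocks (`f v` is the number of the block of `v`) which induce
forests, such that no vertex has two neighbours in the same earlier block, and every vertex has at
most `r - 1` neighbours in earlier blocks, or it has at most `r` neighbours in earlier blocks and no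
other neighbours. -/
def ForestBlocks {V : Type} (H : SimpleGraph V) (r : ℕ) : Prop :=
  ∃ f : V → ℕ, (∀ i, (H.induce {v | f v = i}).IsAcyclic) ∧
    (∀ v u u', H.Adj v u → H.Adj v u' → f u = f u' → f u < f v → u = u') ∧
    (∀ v, Set.ncard {u | H.Adj v u ∧ f u < f v} + 1 ≤ r ∨
      (Set.ncard {u | H.Adj v u ∧ f u < f v} ≤ r ∧ ∀ u, H.Adj v u → f u < f v))

/-- The Cartesian product of the graphs `T i`: two vertices are adjacent if they differ in exactly
one coordinate `i`, and these coordinates are adjacent in `T i`. -/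
def prodG {r : ℕ} {V : Fin r → Type} (T : (i : Fin r) → SimpleGraph (V i)) :
    SimpleGraph ((i : Fin r) → V i) where
  Adj x y := ∃ i, (T i).Adj (x i) (y i) ∧ ∀ j, j ≠ i → x j = y j
  symm := ⟨fun _ _ ⟨i, h, h'⟩ => ⟨i, h.symm, fun j hj => (h' j hj).symm⟩⟩
  loopless := ⟨fun x ⟨i, h, _⟩ => (T i).loopless.irrefl _ h⟩

/-- `r`-degenerate (as in the frozen statement): an ordering in which every vertex has at most `r`
earlier neighbours. -/
def Degenerate {k : ℕ} (H : SimpleGraph (Fin k)) (r : ℕ) : Prop :=
  ∃ f : Fin k → ℕ, Function.Injective f ∧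
    ∀ v : Fin k, Set.ncard {u : Fin k | H.Adj u v ∧ f u < f v} ≤ r

/-- `R(H, K_{n,n}) = O(n ^ r)`, as in the frozen statement. -/
def BoundPower {k : ℕ} (H : SimpleGraph (Fin k)) (r : ℕ) : Prop :=
  ∃ C : ℕ, ∀ n N : ℕ, C * n ^ r ≤ N → ∀ G : SimpleGraph (Fin N),
    H.IsContained G ∨ (completeBipartiteGraph (Fin n) (Fin n)).IsContained Gᶜ

/-- `R(H, K_{n,n}) = O(n ^ r / (log n) ^ (r - 1))`. -/
def BoundLog {k : ℕ} (H : SimpleGraph (Fin k)) (r : ℕ) : Prop :=
  ∃ C : ℝ, ∀ n N : ℕ, 2 ≤ n → C * (n : ℝ) ^ r / Real.log n ^ (r - 1) ≤ N →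
    ∀ G : SimpleGraph (Fin N),
      H.IsContained G ∨ (completeBipartiteGraph (Fin n) (Fin n)).IsContained Gᶜ

theorem degenerate_of_ordBlocks {r k : ℕ} {H : SimpleGraph (Fin k)} (h : FB.OrdBlocks H r) :
    Degenerate H r := by
  classical
  obtain ⟨f, g, hg, h1, -, h3⟩ := h
  let m : ℕ := Finset.univ.sup g + 1
  have hm : ∀ v, g v < m := fun v => Nat.lt_succ_of_le (Finset.le_sup (f := g) (Finset.mem_univ v))
  have key : ∀ u v, f u * m + g u < f v * m + g v ↔ f u < f v ∨ (f u = f v ∧ g u < g v) := by
    intro u v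
    constructor
    · intro h
      rcases lt_trichotomy (f u) (f v) with h' | h' | h'
      · exact Or.inl h'
      · right
        rw [h'] at h
        exact ⟨h', by omega⟩
      · exfalso
        have h4 : (f v + 1) * m ≤ f u * m := Nat.mul_le_mul_right _ h'
        have h5 := hm v
        have h6 : (f v + 1) * m = f v * m + m := by ring
        omega
    · rintro (h | ⟨h, h'⟩)
      · have h4 : (f u + 1) * m ≤ f v * m := Nat.mul_le_mul_right _ h
        have h5 := hm u
        have h6 : (f u + 1) * m = f u * m + m := by ring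
        omega
      · rw [h]
        omega
  refine ⟨fun v => f v * m + g v, ?_, ?_⟩
  · intro u v huv
    have a1 := (key u v).not.1 (by simp only at huv; omega)
    have a2 := (key v u).not.1 (by simp only at huv; omega)
    push Not at a1 a2
    have a3 : f u = f v := le_antisymm a2.1 a1.1
    exact hg (le_antisymm (a2.2 a3.symm) (a1.2 a3))
  · intro v
    have hsub : {u : Fin k | H.Adj u v ∧ f u * m + g u < f v * m + g v} ⊆
        {u | H.Adj v u ∧ f u < f v} ∪ {u | H.Adj v u ∧ f u = f v ∧ g u < g v} := by
      rintro u ⟨hu, hlt⟩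
      rcases (key u v).1 hlt with h' | h'
      · exact Or.inl ⟨hu.symm, h'⟩
      · exact Or.inr ⟨hu.symm, h'⟩
    have hone : Set.ncard {u | H.Adj v u ∧ f u = f v ∧ g u < g v} ≤ 1 := by
      rw [Set.ncard_le_one_iff]
      intro u u' hu hu'
      exact h1 v u u' hu.1 hu'.1 hu.2.1 hu'.2.1 hu.2.2 hu'.2.2
    have hle := (Set.ncard_le_ncard hsub (Set.toFinite _)).trans (Set.ncard_union_le _ _)
    refine le_trans hle ?_
    rcases h3 v with h' | ⟨h', h''⟩
    · omega
    · have hempty : {u | H.Adj v u ∧ f u = f v ∧ g u < g v} = ∅ := by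
        ext u
        simp only [Set.mem_setOf_eq, Set.mem_empty_iff_false, iff_false]
        rintro ⟨hu, hu', -⟩
        have := h'' u hu
        omega
      rw [hempty, Set.ncard_empty]
      omega

/-- The product of an `r`-degenerate graph and a forest is in the class for `r + 1`: the blocks are the
copies of the forest. -/
theorem box {r a b : ℕ} {A : SimpleGraph (Fin a)} {T : SimpleGraph (Fin b)} (hA : Degenerate A r)
    (hT : T.IsAcyclic) : FB.ForestBlocks (A.boxProd T) (r + 1) := by
  obtain ⟨g, hg, hA⟩ := hA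
  refine ⟨fun x => g x.1, fun i => ?_, ?_, fun x => Or.inl ?_⟩
  · let φ : (A.boxProd T).induce {v | g v.1 = i} →g T :=
      ⟨fun x => x.1.2, by
        rintro ⟨⟨x, y⟩, hx⟩ ⟨⟨x', y'⟩, hx'⟩ hadj
        have hxx : x = x' := hg (hx.trans hx'.symm)
        subst hxx
        rw [SimpleGraph.induce_adj, SimpleGraph.boxProd_adj] at hadj
        rcases hadj with h | h
        · exact absurd h.1 (A.loopless.irrefl _)
        · exact h.1⟩
    refine hT.comap φ ?_
    rintro ⟨⟨x, y⟩, hx⟩ ⟨⟨x', y'⟩, hx'⟩ h
    have hxx : x = x' := hg (hx.trans hx'.symm)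
    have hyy : y = y' := h
    subst hxx
    subst hyy
    rfl
  · rintro ⟨v, w⟩ ⟨u, w1⟩ ⟨u', w2⟩ h1 h2 h3 h4
    simp only at h3 h4
    rw [SimpleGraph.boxProd_adj] at h1 h2
    have huu : u = u' := hg h3
    subst huu
    have hne : ¬ v = u := fun h => by subst h; omega
    rcases h1 with h1 | h1
    · rcases h2 with h2 | h2
      · have e1 := h1.2
        have e2 := h2.2
        simp only at e1 e2
        rw [← e1, ← e2]
      · exact absurd h2.2 hne
    · exact absurd h1.2 hne
  · obtain ⟨v, w⟩ := x
    have hsub : {u : Fin a × Fin b | (A.boxProd T).Adj (v, w) u ∧ g u.1 < g v} ⊆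
        (fun u => (u, w)) '' {u : Fin a | A.Adj u v ∧ g u < g v} := by
      rintro ⟨u, w'⟩ ⟨h1, h2⟩
      rw [SimpleGraph.boxProd_adj] at h1
      simp only at h1 h2
      rcases h1 with h1 | h1
      · exact ⟨u, ⟨h1.1.symm, h2⟩, by rw [h1.2]⟩
      · exfalso
        have := h1.2
        subst this
        omega
    have h1 := Set.ncard_le_ncard hsub (Set.toFinite _)
    have h2 := h1.trans (Set.ncard_image_le (Set.toFinite _))
    exact Nat.succ_le_succ (h2.trans (hA v))

/-- (1) Every graph of the class (with `r ≥ 1`) is `r`-degenerate, `R(H, K_{n,n}) = O(n ^ r)`, and even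
`R(H, K_{n,n}) = O(n ^ r / (log n) ^ (r - 1))`. (2) The same with `r + 1` in the place of `r` for all
subgraphs `H` of Cartesian products `A □ T` of an `r`-degenerate graph `A` and a forest `T`. (3) The same
with `r + 1` in the place of `r` for all subgraphs `H` of Cartesian products of `r + 1` forests. -/
theorem result :
    (∀ r k : ℕ, 1 ≤ r → ∀ H : SimpleGraph (Fin k), ForestBlocks H r →
      Degenerate H r ∧ BoundPower H r ∧ BoundLog H r) ∧
    (∀ (r a b : ℕ) (A : SimpleGraph (Fin a)) (T : SimpleGraph (Fin b)), Degenerate A r →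
      T.IsAcyclic → ∀ (k : ℕ) (H : SimpleGraph (Fin k)), H.IsContained (A.boxProd T) →
        Degenerate H (r + 1) ∧ BoundPower H (r + 1) ∧ BoundLog H (r + 1)) ∧
    (∀ (r : ℕ) (V : Fin (r + 1) → Type) [∀ i, Finite (V i)]
      (T : (i : Fin (r + 1)) → SimpleGraph (V i)), (∀ i, (T i).IsAcyclic) →
      ∀ (k : ℕ) (H : SimpleGraph (Fin k)), H.IsContained (prodG T) →
        Degenerate H (r + 1) ∧ BoundPower H (r + 1) ∧ BoundLog H (r + 1)) := by
  have main : ∀ r k : ℕ, 1 ≤ r → ∀ H : SimpleGraph (Fin k), ForestBlocks H r →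
      Degenerate H r ∧ BoundPower H r ∧ BoundLog H r := by
    intro r k hr H hH
    have hO : FB.OrdBlocks H r := Pool.Agent.V5helper69.FB.t_CONV
      Pool.Agent.V5helper46.FB.t_ACY r k H hH
    refine ⟨degenerate_of_ordBlocks hO, ?_, FB.Lg.core r k hr H hO⟩
    obtain ⟨c, hc⟩ := FB.t_CORE Pool.Agent.V5helper36.FB.t_DEG r k H hO
    refine ⟨c, fun n N hN G => ?_⟩
    rcases Nat.eq_zero_or_pos n with rfl | hn
    · right
      exact ⟨⟨⟨fun x => (x.elim (fun i => i.elim0) fun i => i.elim0), fun {x} _ =>
        x.elim (fun i => i.elim0) fun i => i.elim0⟩, fun x _ _ =>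
        x.elim (fun i => i.elim0) fun i => i.elim0⟩⟩
    · by_cases hcon : (completeBipartiteGraph (Fin n) (Fin n)).IsContained Gᶜ
      · exact Or.inr hcon
      · exact Or.inl (hc n N hn hN G (Pool.Agent.V5helper53.FB.t_HOLE N n G hcon))
  refine ⟨main, ?_, ?_⟩
  · intro r a b A T hA hT k H hH
    exact main (r + 1) k (Nat.succ_le_succ (Nat.zero_le r)) H
      (Pool.Agent.V5helper26.FB.t_MONO (r + 1) k H _ (A.boxProd T) hH (box hA hT))
  intro r V _ T hT k H hH
  exact main (r + 1) k (Nat.succ_le_succ (Nat.zero_le r)) H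
    (Pool.Agent.V5helper26.FB.t_MONO (r + 1) k H _ (FB.prodG T) hH
      (Pool.Agent.V5helper37.FB.t_PROD Pool.Agent.V5helper46.FB.t_ACY r V T hT))

end Pool.Agent.Results.MP_cdbf1d_co.ForestBlocks
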